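import Pool.Agent.E8helper66.GB.Stm
import Pool.Agent.H373R2.T7.LamZ2

set_option autoImplicit false

/-!
# Project GB, piece GB-11 (LZ)
-/

namespace Pool.Agent.E8helper70.GB

open Finset
open Pool.Agent.H807R2.Dav (ee norm_ee)
open Pool.Agent.H373R2.T7 (lamz pz Vz Vz_pos Vz_inv_small mem_pz bonf_ind prod_dvd_iff sum_small_le sum_mult
  sum_pz_le es bonf bonf_bound es_le choice ev_log' ev_L')
open Pool.Agent.E8helper66.GB (FF BB SupLe S_TII S_TI S_LZ)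

lemma phase (w : ℂ) : ∃ c : ℂ, ‖c‖ ≤ 1 ∧ c * w = ((‖w‖ : ℝ) : ℂ) := by
  by_cases h : w = 0
  · exact ⟨0, by simp, by simp [h]⟩
  · have h0 : ‖w‖ ≠ 0 := norm_ne_zero_iff.2 h
    have h1 : ((‖w‖ : ℝ) : ℂ) ≠ 0 := by exact_mod_cast h0
    refine ⟨(starRingEnd ℂ) w / ((‖w‖ : ℝ) : ℂ), ?_, ?_⟩
    · rw [norm_div, RCLike.norm_conj, Complex.norm_real, norm_norm, div_self h0]
    · rw [div_mul_eq_mul_div, mul_comm ((starRingEnd ℂ) w) w, Complex.mul_conj, Complex.normSq_eq_norm_sq,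
        div_eq_iff h1]
      push_cast
      ring

lemma dyadic (m₀ J : ℕ) (f : ℕ → ℂ) : ∑ x ∈ Ioc m₀ (m₀ * 2 ^ J), f x =
    ∑ j ∈ range J, ∑ x ∈ Ioc (m₀ * 2 ^ j) (2 * (m₀ * 2 ^ j)), f x := by
  induction J with
  | zero => simp
  | succ J ih =>
    rw [sum_range_succ, ← ih]
    have e : m₀ * 2 ^ (J + 1) = 2 * (m₀ * 2 ^ J) := by ring
    rw [e, sum_Ioc_consecutive]
    · exact Nat.le_mul_of_pos_right _ (by positivity)
    · omega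

lemma FF_le (N : ℕ) (E : ℕ → ℂ) (κ : ℤ → ℂ) (θ : ℤ → ℝ) (Q : ℝ) (hQ : 0 ≤ Q) (hE : ∀ y ∈ Icc 1 N, ‖E y‖ ≤ Q)
    (hκ : ∀ h, ‖κ h‖ ≤ 1) (x : ℕ) : ‖FF N E κ θ x‖ ≤ N * Q := by
  unfold FF
  refine (norm_sum_le _ _).trans ?_
  calc ∑ y ∈ Icc 1 N, ‖E y * (κ ((y : ℤ) - x) * ee (θ ((y : ℤ) - x) * x))‖ ≤ ∑ _y ∈ Icc 1 N, Q := by
        apply sum_le_sum
        intro y hy
        rw [norm_mul, norm_mul, norm_ee, mul_one]
        calc ‖E y‖ * ‖κ ((y : ℤ) - x)‖ ≤ Q * 1 := mul_le_mul (hE y hy) (hκ _) (norm_nonneg _) hQ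
          _ = Q := mul_one _
    _ = N * Q := by rw [sum_const, Nat.card_Icc, Nat.add_sub_cancel, nsmul_eq_mul]

/-- the dyadic blocks -/
lemma block (C₂ : ℕ) (T₂ : ℝ) (N m₀ i j : ℕ) (E : ℕ → ℂ) (κ : ℤ → ℂ) (θ : ℤ → ℝ) (a : ℕ → ℂ)
    (hII : ∀ (T : ℝ) (N M L X X' : ℕ) (E : ℕ → ℂ) (κ : ℤ → ℂ) (θ : ℤ → ℝ) (a b : ℕ → ℂ) (A B : ℝ),
      2 ≤ T → Real.log N ≤ T → T ^ C₂ ≤ M → T ^ C₂ ≤ L → M * L ≤ N → X' ≤ N → (∀ y ∈ Icc 1 N, ‖E y‖ ≤ T) →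
      SupLe N E (N / T ^ C₂) → (∀ h, ‖κ h‖ ≤ 1) → 0 ≤ A → 0 ≤ B →
      ∑ m ∈ Ioc M (2 * M), ‖a m‖ ^ 2 ≤ A * M → ∑ l ∈ Ioc L (2 * L), ‖b l‖ ^ 2 ≤ B * L →
      ‖BB M L X X' a b (FF N E κ θ)‖ ^ 2 ≤ A * B * ((N : ℝ) ^ 2 / T) ^ 2)
    (hT : 2 ≤ T₂) (hlog : Real.log N ≤ T₂) (hm : T₂ ^ C₂ ≤ m₀) (hE : ∀ y ∈ Icc 1 N, ‖E y‖ ≤ T₂)
    (hS : SupLe N E (N / T₂ ^ C₂)) (hκ : ∀ h, ‖κ h‖ ≤ 1) (ha : ∀ n, ‖a n‖ ≤ 1) :
    ‖BB (m₀ * 2 ^ i) (m₀ * 2 ^ j) 0 N a (fun _ => 1) (FF N E κ θ)‖ ≤ (N : ℝ) ^ 2 / T₂ := by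
  by_cases hML : m₀ * 2 ^ i * (m₀ * 2 ^ j) ≤ N
  · have hge : ∀ i : ℕ, T₂ ^ C₂ ≤ ((m₀ * 2 ^ i : ℕ) : ℝ) := by
      intro i
      refine hm.trans ?_
      exact_mod_cast Nat.le_mul_of_pos_right _ (by positivity)
    have hone : ∀ (c : ℕ → ℂ) (M : ℕ), (∀ n, ‖c n‖ ≤ 1) → ∑ m ∈ Ioc M (2 * M), ‖c m‖ ^ 2 ≤ 1 * (M : ℝ) := by
      intro c M hc
      calc ∑ m ∈ Ioc M (2 * M), ‖c m‖ ^ 2 ≤ ∑ _m ∈ Ioc M (2 * M), (1 : ℝ) :=
            sum_le_sum fun m _ => pow_le_one₀ (norm_nonneg _) (hc m)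
        _ = 1 * (M : ℝ) := by
            rw [sum_const, Nat.card_Ioc, nsmul_eq_mul, mul_one, one_mul, two_mul, Nat.add_sub_cancel]
    have h := hII T₂ N (m₀ * 2 ^ i) (m₀ * 2 ^ j) 0 N E κ θ a (fun _ => 1) 1 1 hT hlog (hge i) (hge j) hML le_rfl hE hS
      hκ zero_le_one zero_le_one (hone a _ ha) (hone _ _ fun _ => by simp)
    rw [one_mul, one_mul] at h
    exact (sq_le_sq₀ (norm_nonneg _) (by positivity)).1 h
  · have h0 : BB (m₀ * 2 ^ i) (m₀ * 2 ^ j) 0 N a (fun _ => 1) (FF N E κ θ) = 0 := by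
      unfold BB
      apply sum_eq_zero
      intro m hm
      apply sum_eq_zero
      intro l hl
      rw [mem_Ioc] at hm hl
      rw [if_neg, mul_zero]
      rintro ⟨_, h2⟩
      apply hML
      exact (Nat.mul_le_mul hm.1.le hl.1.le).trans h2
    rw [h0, norm_zero]
    positivity

/-- the sums over the multiples of the `d ≤ D` -/
theorem mults (C₁ C₂ : ℕ)
    (hI : ∀ (T : ℝ) (N d u v : ℕ) (E : ℕ → ℂ) (κ : ℤ → ℂ) (θ : ℤ → ℝ),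
      2 ≤ T → T ^ C₁ ≤ N → 1 ≤ d → (d : ℝ) ≤ T → d * v ≤ N → (∀ y ∈ Icc 1 N, ‖E y‖ ≤ T) →
      SupLe N E (N / T ^ C₁) → (∀ h, ‖κ h‖ ≤ 1) →
      ‖∑ l ∈ Ioc u v, FF N E κ θ (d * l)‖ ≤ (N : ℝ) ^ 2 / T)
    (hII : ∀ (T : ℝ) (N M L X X' : ℕ) (E : ℕ → ℂ) (κ : ℤ → ℂ) (θ : ℤ → ℝ) (a b : ℕ → ℂ) (A B : ℝ),
      2 ≤ T → Real.log N ≤ T → T ^ C₂ ≤ M → T ^ C₂ ≤ L → M * L ≤ N → X' ≤ N → (∀ y ∈ Icc 1 N, ‖E y‖ ≤ T) →
      SupLe N E (N / T ^ C₂) → (∀ h, ‖κ h‖ ≤ 1) → 0 ≤ A → 0 ≤ B →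
      ∑ m ∈ Ioc M (2 * M), ‖a m‖ ^ 2 ≤ A * M → ∑ l ∈ Ioc L (2 * L), ‖b l‖ ^ 2 ≤ B * L →
      ‖BB M L X X' a b (FF N E κ θ)‖ ^ 2 ≤ A * B * ((N : ℝ) ^ 2 / T) ^ 2)
    (T₁ T₂ Q : ℝ) (N D m₀ J : ℕ) (E : ℕ → ℂ) (κ : ℤ → ℂ) (θ : ℤ → ℝ)
    (hT1 : 2 ≤ T₁) (hT2 : 2 ≤ T₂) (hlog : Real.log N ≤ T₂) (hTN : T₁ ^ C₁ ≤ N) (hm : T₂ ^ C₂ ≤ m₀)
    (hmT : (m₀ : ℝ) ≤ T₁) (hJ : N ≤ m₀ * 2 ^ J) (hDN : D ≤ N) (hQ : 0 ≤ Q) (hQ1 : Q ≤ T₁) (hQ2 : Q ≤ T₂)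
    (hE : ∀ y ∈ Icc 1 N, ‖E y‖ ≤ Q) (hS1 : SupLe N E (N / T₁ ^ C₁)) (hS2 : SupLe N E (N / T₂ ^ C₂))
    (hκ : ∀ h, ‖κ h‖ ≤ 1) :
    ∑ d ∈ Icc 1 D, ‖∑ m ∈ Icc 1 (N / d), FF N E κ θ (d * m)‖ ≤
      m₀ * ((N : ℝ) ^ 2 / T₁) + (D * m₀ * (N * Q) + J ^ 2 * ((N : ℝ) ^ 2 / T₂)) := by
  classical
  obtain ⟨F, hF⟩ : ∃ F, F = FF N E κ θ := ⟨_, rfl⟩
  rw [← hF]
  have hIoc : ∀ n, Icc 1 n = Ioc 0 n := by
    intro n; ext x; rw [mem_Icc, mem_Ioc]; omega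
  rw [← sum_filter_add_sum_filter_not (Icc 1 D) (fun d => d ≤ m₀)]
  apply add_le_add
  · -- small `d`
    calc ∑ d ∈ (Icc 1 D).filter (fun d => d ≤ m₀), ‖∑ m ∈ Icc 1 (N / d), F (d * m)‖ ≤
          ∑ _d ∈ (Icc 1 D).filter (fun d => d ≤ m₀), (N : ℝ) ^ 2 / T₁ := by
          apply sum_le_sum
          intro d hd
          rw [mem_filter, mem_Icc] at hd
          rw [hIoc, hF]
          have hdm : (d : ℝ) ≤ m₀ := by exact_mod_cast hd.2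
          exact hI T₁ N d 0 (N / d) E κ θ hT1 hTN hd.1.1 (hdm.trans hmT) (Nat.mul_div_le _ _)
            (fun y hy => (hE y hy).trans hQ1) hS1 hκ
      _ = ((Icc 1 D).filter (fun d => d ≤ m₀)).card * ((N : ℝ) ^ 2 / T₁) := by rw [sum_const, nsmul_eq_mul]
      _ ≤ m₀ * ((N : ℝ) ^ 2 / T₁) := by
          have h1 : ((Icc 1 D).filter (fun d => d ≤ m₀)).card ≤ m₀ := by
            have : (Icc 1 D).filter (fun d => d ≤ m₀) ⊆ Icc 1 m₀ := by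
              intro d hd
              rw [mem_filter, mem_Icc] at hd
              rw [mem_Icc]
              exact ⟨hd.1.1, hd.2⟩
            refine (card_le_card this).trans ?_
            rw [Nat.card_Icc, Nat.add_sub_cancel]
          have h2 : (((Icc 1 D).filter (fun d => d ≤ m₀)).card : ℝ) ≤ m₀ := by exact_mod_cast h1
          gcongr
  · -- large `d`
    have e1 : (Icc 1 D).filter (fun d => ¬ d ≤ m₀) = Ioc m₀ D := by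
      ext d
      rw [mem_filter, mem_Icc, mem_Ioc]
      omega
    rw [e1]
    choose c hc1 hc2 using fun d : ℕ => phase (∑ m ∈ Icc 1 (N / d), F (d * m))
    set a : ℕ → ℂ := fun d => if d ≤ D then c d else 0 with ha
    have ha1 : ∀ n, ‖a n‖ ≤ 1 := by
      intro n
      rw [ha]
      by_cases h : n ≤ D
      · simp only [if_pos h]; exact hc1 n
      · simp only [if_neg h, norm_zero]; exact zero_le_one
    set I : ℕ → ℕ → ℂ := fun d m => if 0 < d * m ∧ d * m ≤ N then F (d * m) else 0 with hI'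
    have hDJ : D ≤ m₀ * 2 ^ J := hDN.trans hJ
    have hFb : ∀ x, ‖F x‖ ≤ N * Q := by
      rw [hF]
      exact FF_le N E κ θ Q hQ hE hκ
    have hIb : ∀ d m, ‖I d m‖ ≤ N * Q := by
      intro d m
      rw [hI']
      by_cases h : 0 < d * m ∧ d * m ≤ N
      · simp only [if_pos h]; exact hFb _
      · simp only [if_neg h, norm_zero]; positivity
    have e2 : ∀ d, 1 ≤ d → ∑ m ∈ Icc 1 (N / d), F (d * m) = ∑ m ∈ Ioc 0 (m₀ * 2 ^ J), I d m := by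
      intro d hd
      rw [hI', ← sum_filter]
      apply sum_congr _ fun _ _ => rfl
      ext m
      rw [mem_Icc, mem_filter, mem_Ioc]
      constructor
      · rintro ⟨h1, h2⟩
        have h3 : d * m ≤ N := by
          rw [mul_comm]
          exact (Nat.le_div_iff_mul_le hd).1 h2
        have h4 : m ≤ d * m := Nat.le_mul_of_pos_left _ hd
        exact ⟨⟨h1, by omega⟩, Nat.mul_pos hd h1, h3⟩
      · rintro ⟨⟨h1, h2⟩, h3, h4⟩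
        exact ⟨h1, (Nat.le_div_iff_mul_le hd).2 (by rwa [mul_comm] at h4)⟩
    have hm0J : m₀ ≤ m₀ * 2 ^ J := Nat.le_mul_of_pos_right _ (by positivity)
    have e3 : ∀ d, ∑ m ∈ Ioc 0 (m₀ * 2 ^ J), I d m = ∑ m ∈ Ioc 0 m₀, I d m + ∑ m ∈ Ioc m₀ (m₀ * 2 ^ J), I d m :=
      fun d => (sum_Ioc_consecutive _ (Nat.zero_le _) hm0J).symm
    have e4 : ((∑ d ∈ Ioc m₀ D, ‖∑ m ∈ Icc 1 (N / d), F (d * m)‖ : ℝ) : ℂ) =
        ∑ d ∈ Ioc m₀ (m₀ * 2 ^ J), a d * ∑ m ∈ Ioc 0 m₀, I d m +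
        ∑ d ∈ Ioc m₀ (m₀ * 2 ^ J), a d * ∑ m ∈ Ioc m₀ (m₀ * 2 ^ J), I d m := by
      rw [← sum_add_distrib]
      have f1 : ∀ d ∈ Ioc m₀ D, (((‖∑ m ∈ Icc 1 (N / d), F (d * m)‖ : ℝ)) : ℂ) =
          a d * ∑ m ∈ Ioc 0 m₀, I d m + a d * ∑ m ∈ Ioc m₀ (m₀ * 2 ^ J), I d m := by
        intro d hd
        rw [mem_Ioc] at hd
        rw [← mul_add, ← e3 d, ← e2 d (by omega), ← hc2 d, ha]
        simp only [if_pos hd.2]
      push_cast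
      rw [sum_congr rfl f1]
      apply sum_subset
      · intro d hd
        rw [mem_Ioc] at hd ⊢
        omega
      · intro d hd1 hd2
        rw [mem_Ioc] at hd1 hd2
        have : ¬ d ≤ D := by omega
        rw [ha]
        simp only [if_neg this, zero_mul, add_zero]
    have e5 : ∑ d ∈ Ioc m₀ D, ‖∑ m ∈ Icc 1 (N / d), F (d * m)‖ =
        ‖((∑ d ∈ Ioc m₀ D, ‖∑ m ∈ Icc 1 (N / d), F (d * m)‖ : ℝ) : ℂ)‖ := by
      rw [Complex.norm_real, Real.norm_of_nonneg (sum_nonneg fun _ _ => norm_nonneg _)]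
    rw [e5, e4]
    refine (norm_add_le _ _).trans (add_le_add ?_ ?_)
    · -- short sums
      refine (norm_sum_le _ _).trans ?_
      have f1 : ∀ d ∈ Ioc m₀ (m₀ * 2 ^ J), ‖a d * ∑ m ∈ Ioc 0 m₀, I d m‖ ≤ if d ∈ Icc 1 D then m₀ * (N * Q) else 0 := by
        intro d hd
        rw [mem_Ioc] at hd
        rw [norm_mul]
        by_cases h : d ≤ D
        · rw [if_pos (mem_Icc.2 ⟨by omega, h⟩)]
          have f2 : ‖∑ m ∈ Ioc 0 m₀, I d m‖ ≤ m₀ * (N * Q) := by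
            refine (norm_sum_le _ _).trans ?_
            calc ∑ m ∈ Ioc 0 m₀, ‖I d m‖ ≤ ∑ _m ∈ Ioc 0 m₀, (N : ℝ) * Q := sum_le_sum fun m _ => hIb d m
              _ = m₀ * (N * Q) := by rw [sum_const, Nat.card_Ioc, Nat.sub_zero, nsmul_eq_mul]
          calc ‖a d‖ * ‖∑ m ∈ Ioc 0 m₀, I d m‖ ≤ 1 * (m₀ * (N * Q)) :=
                mul_le_mul (ha1 d) f2 (norm_nonneg _) zero_le_one
            _ = _ := one_mul _
        · have f3 : a d = 0 := by rw [ha]; simp only [if_neg h]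
          rw [f3, norm_zero, zero_mul]
          split_ifs <;> positivity
      refine (sum_le_sum f1).trans ?_
      rw [← sum_filter, sum_const, nsmul_eq_mul, mul_assoc]
      have f4 : (((Ioc m₀ (m₀ * 2 ^ J)).filter (fun d => d ∈ Icc 1 D)).card : ℝ) ≤ D := by
        have : (Ioc m₀ (m₀ * 2 ^ J)).filter (fun d => d ∈ Icc 1 D) ⊆ Icc 1 D := fun d hd => (mem_filter.1 hd).2
        have f5 := card_le_card this
        rw [Nat.card_Icc, Nat.add_sub_cancel] at f5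
        exact_mod_cast f5
      gcongr
    · -- the dyadic blocks
      have f1 : ∑ d ∈ Ioc m₀ (m₀ * 2 ^ J), a d * ∑ m ∈ Ioc m₀ (m₀ * 2 ^ J), I d m =
          ∑ i ∈ range J, ∑ j ∈ range J, BB (m₀ * 2 ^ i) (m₀ * 2 ^ j) 0 N a (fun _ => 1) F := by
        rw [dyadic]
        apply sum_congr rfl
        intro i _
        unfold BB
        have f2 : ∀ d, ∑ m ∈ Ioc m₀ (m₀ * 2 ^ J), I d m =
            ∑ j ∈ range J, ∑ m ∈ Ioc (m₀ * 2 ^ j) (2 * (m₀ * 2 ^ j)), I d m := fun d => dyadic m₀ J _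
        simp only [f2, mul_sum]
        rw [sum_comm]
        apply sum_congr rfl
        intro j _
        apply sum_congr rfl
        intro d _
        apply sum_congr rfl
        intro m _
        rw [mul_one]
      rw [f1]
      refine (norm_sum_le _ _).trans ?_
      calc ∑ i ∈ range J, ‖∑ j ∈ range J, BB (m₀ * 2 ^ i) (m₀ * 2 ^ j) 0 N a (fun _ => 1) F‖ ≤
            ∑ _i ∈ range J, ∑ _j ∈ range J, (N : ℝ) ^ 2 / T₂ := by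
            apply sum_le_sum
            intro i _
            refine (norm_sum_le _ _).trans (sum_le_sum fun j _ => ?_)
            rw [hF]
            exact block C₂ T₂ N m₀ i j E κ θ a hII hT2 hlog hm (fun y hy => (hE y hy).trans hQ2) hS2 hκ ha1
        _ = J ^ 2 * ((N : ℝ) ^ 2 / T₂) := by
            simp only [sum_const, card_range, nsmul_eq_mul]
            ring

lemma x_prod (S : Finset ℕ) (hS : ∀ p ∈ S, p.Prime) (n : ℕ) :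
    ∏ p ∈ S, (if p ∣ n then (1 : ℝ) else 0) = if ∏ p ∈ S, p ∣ n then 1 else 0 := by
  by_cases h : ∏ p ∈ S, p ∣ n
  · rw [if_pos h]
    apply prod_eq_one
    intro p hp
    rw [if_pos ((prod_dvd_iff S hS n).2 h p hp)]
  · rw [if_neg h]
    have : ∃ p ∈ S, ¬ p ∣ n := by
      by_contra hcon
      push Not at hcon
      exact h ((prod_dvd_iff S hS n).1 hcon)
    obtain ⟨p, hp, hpn⟩ := this
    exact prod_eq_zero hp (if_neg hpn)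

lemma lamz_eq (z n : ℕ) : lamz z n = (Vz z)⁻¹ * ∏ p ∈ pz z, (1 - if p ∣ n then (1 : ℝ) else 0) := by
  unfold lamz
  by_cases h : ∀ p ∈ pz z, ¬ p ∣ n
  · rw [if_pos h, prod_eq_one, mul_one]
    intro p hp
    rw [if_neg (h p hp), sub_zero]
  · rw [if_neg h]
    push Not at h
    obtain ⟨p, hp, hpn⟩ := h
    rw [prod_eq_zero hp, mul_zero]
    rw [if_pos hpn, sub_self]

/-- Bonferroni's inequality -/
theorem model (F : ℕ → ℂ) (N z r : ℕ) (Q ε : ℝ) (hQ : 0 ≤ Q) (hF : ∀ x, ‖F x‖ ≤ Q)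
    (hr : Real.exp (3 * (1 * (1 + Real.log z)) - r) ≤ ε) :
    ‖∑ n ∈ Icc 1 N, ((lamz z n : ℝ) : ℂ) * F n‖ ≤
      (Vz z)⁻¹ * (Q * (N * ε) + ∑ d ∈ Icc 1 ((z + 1) ^ r), ‖∑ m ∈ Icc 1 (N / d), F (d * m)‖) := by
  have hV0 : 0 < (Vz z)⁻¹ := inv_pos.2 (Vz_pos z)
  have hN0 : (0 : ℝ) ≤ N := Nat.cast_nonneg N
  set ind : ℕ → ℝ := fun n => ∏ p ∈ pz z, (1 - if p ∣ n then (1 : ℝ) else 0) with hind
  set χ : Finset ℕ → ℕ → ℝ := fun S n => ∏ p ∈ S, (if p ∣ n then (1 : ℝ) else 0) with hχ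
  have hpt : ∀ n : ℕ, |ind n - ∑ j ∈ range r, (-1 : ℝ) ^ j * ∑ S ∈ (pz z).powersetCard j, χ S n| ≤
      ∑ S ∈ (pz z).powersetCard r, χ S n := by
    intro n
    have := bonf_bound (fun p => if p ∣ n then (1 : ℝ) else 0) (pz z) (fun p _ => by
      by_cases h : p ∣ n <;> simp [h]) r
    unfold bonf es at this
    exact this
  have hS : ∑ n ∈ Icc 1 N, ((lamz z n : ℝ) : ℂ) * F n =
      (((Vz z)⁻¹ : ℝ) : ℂ) * ∑ n ∈ Icc 1 N, ((ind n : ℝ) : ℂ) * F n := by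
    rw [mul_sum]
    apply sum_congr rfl
    intro n _
    rw [lamz_eq, Complex.ofReal_mul, mul_assoc]
  have hprime : ∀ j, ∀ S ∈ (pz z).powersetCard j, ∀ p ∈ S, p.Prime := fun j S hS p hp =>
    (mem_pz.1 ((mem_powersetCard.1 hS).1 hp)).2
  have hpos : ∀ j, ∀ S ∈ (pz z).powersetCard j, 1 ≤ ∏ p ∈ S, p := fun j S hS =>
    Nat.pos_of_ne_zero (prod_ne_zero_iff.2 fun p hp => (hprime j S hS p hp).ne_zero)
  -- the error
  have herr : ∑ n ∈ Icc 1 N, ∑ S ∈ (pz z).powersetCard r, χ S n ≤ N * ε := by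
    rw [sum_comm]
    have h4 : ∀ S ∈ (pz z).powersetCard r, ∑ n ∈ Icc 1 N, χ S n ≤ N * ∏ p ∈ S, (1 / (p : ℝ)) := by
      intro S hS
      have h5 : ∑ n ∈ Icc 1 N, χ S n = (((Icc 1 N).filter (fun n => ∏ p ∈ S, p ∣ n)).card : ℝ) := by
        rw [card_eq_sum_ones]
        push_cast
        rw [sum_filter]
        apply sum_congr rfl
        intro n _
        rw [hχ]
        simp only
        rw [x_prod S (hprime r S hS)]
      rw [h5]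
      have h6 : ((Icc 1 N).filter (fun n => ∏ p ∈ S, p ∣ n)).card = N / ∏ p ∈ S, p := by
        rw [← Nat.Ioc_filter_dvd_card_eq_div N (∏ p ∈ S, p)]
        congr 1
      rw [h6, prod_div_distrib, prod_const_one, mul_one_div]
      refine Nat.cast_div_le.trans ?_
      push_cast
      exact le_rfl
    refine (sum_le_sum h4).trans ?_
    rw [← mul_sum]
    apply mul_le_mul_of_nonneg_left _ hN0
    have h5 := es_le (x := fun p => 1 / (p : ℝ)) (T := pz z) (fun p _ => by positivity) r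
    unfold es at h5
    refine h5.trans ?_
    refine le_trans ?_ hr
    apply Real.exp_le_exp.2
    have := sum_pz_le z
    linarith
  -- the main part
  have hmain : ‖∑ n ∈ Icc 1 N, (((∑ j ∈ range r, (-1 : ℝ) ^ j * ∑ S ∈ (pz z).powersetCard j, χ S n : ℝ)) : ℂ) *
      F n‖ ≤ ∑ d ∈ Icc 1 ((z + 1) ^ r), ‖∑ m ∈ Icc 1 (N / d), F (d * m)‖ := by
    have h4 : ∑ n ∈ Icc 1 N, (((∑ j ∈ range r, (-1 : ℝ) ^ j * ∑ S ∈ (pz z).powersetCard j, χ S n : ℝ)) : ℂ) *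
        F n = ∑ j ∈ range r, (-1 : ℂ) ^ j * ∑ S ∈ (pz z).powersetCard j,
          ∑ n ∈ Icc 1 N, ((χ S n : ℝ) : ℂ) * F n := by
      simp only [Complex.ofReal_sum, Complex.ofReal_mul, Complex.ofReal_pow, Complex.ofReal_neg, Complex.ofReal_one,
        sum_mul, mul_sum]
      rw [sum_comm]
      apply sum_congr rfl
      intro j _
      rw [sum_comm]
      apply sum_congr rfl
      intro S _
      apply sum_congr rfl
      intro n _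
      ring
    rw [h4]
    refine (norm_sum_le _ _).trans ?_
    have h5 : ∀ j ∈ range r, ‖(-1 : ℂ) ^ j * ∑ S ∈ (pz z).powersetCard j,
          ∑ n ∈ Icc 1 N, ((χ S n : ℝ) : ℂ) * F n‖ ≤
        ∑ S ∈ (pz z).powersetCard j, ‖∑ m ∈ Icc 1 (N / (∏ p ∈ S, p)), F ((∏ p ∈ S, p) * m)‖ := by
      intro j _
      rw [norm_mul, norm_pow, norm_neg, norm_one, one_pow, one_mul]
      refine (norm_sum_le _ _).trans (sum_le_sum fun S hS => ?_)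
      set d := ∏ p ∈ S, p with hd
      have hd1 : 1 ≤ d := hpos j S hS
      have h6 : ∑ n ∈ Icc 1 N, ((χ S n : ℝ) : ℂ) * F n =
          ∑ n ∈ (Icc 1 N).filter (fun n => d ∣ n), F n := by
        rw [sum_filter]
        apply sum_congr rfl
        intro n _
        rw [hχ]
        simp only
        rw [x_prod S (hprime j S hS), ← hd]
        split_ifs <;> simp
      rw [h6, sum_mult N d hd1]
    refine (sum_le_sum h5).trans ?_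
    have h6 := sum_small_le z r (fun d => ‖∑ m ∈ Icc 1 (N / d), F (d * m)‖) (fun d => norm_nonneg _)
    rw [sum_range_succ] at h6
    have h7 : 0 ≤ ∑ S ∈ (pz z).powersetCard r, ‖∑ m ∈ Icc 1 (N / (∏ p ∈ S, p)), F ((∏ p ∈ S, p) * m)‖ :=
      sum_nonneg fun S _ => norm_nonneg _
    linarith
  have htot : ‖∑ n ∈ Icc 1 N, ((ind n : ℝ) : ℂ) * F n‖ ≤
      Q * (N * ε) + ∑ d ∈ Icc 1 ((z + 1) ^ r), ‖∑ m ∈ Icc 1 (N / d), F (d * m)‖ := by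
    have h4 : ∑ n ∈ Icc 1 N, ((ind n : ℝ) : ℂ) * F n =
        ∑ n ∈ Icc 1 N, ((ind n - ∑ j ∈ range r, (-1 : ℝ) ^ j * ∑ S ∈ (pz z).powersetCard j, χ S n : ℝ) : ℂ) * F n +
        ∑ n ∈ Icc 1 N, (((∑ j ∈ range r, (-1 : ℝ) ^ j * ∑ S ∈ (pz z).powersetCard j, χ S n : ℝ)) : ℂ) * F n := by
      rw [← sum_add_distrib]
      apply sum_congr rfl
      intro n _
      rw [← add_mul, ← Complex.ofReal_add, sub_add_cancel]
    rw [h4]
    refine (norm_add_le _ _).trans (add_le_add ?_ hmain)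
    refine le_trans ?_ (mul_le_mul_of_nonneg_left herr hQ)
    rw [mul_sum]
    refine (norm_sum_le _ _).trans (sum_le_sum fun n _ => ?_)
    rw [norm_mul, Complex.norm_real, Real.norm_eq_abs, mul_comm]
    exact mul_le_mul (hF n) (hpt n) (abs_nonneg _) hQ
  rw [hS, norm_mul, Complex.norm_real, Real.norm_of_nonneg hV0.le]
  exact mul_le_mul_of_nonneg_left htot hV0.le

/-- GB-11 -/
theorem t_LZ (h1 : S_TII) (h2 : S_TI) : S_LZ := by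
  classical
  obtain ⟨C₂, hII⟩ := h1
  obtain ⟨C₁, hI⟩ := h2
  intro U
  obtain ⟨u, hu⟩ : ∃ u, u = U + 8 := ⟨_, rfl⟩
  obtain ⟨w, hw⟩ : ∃ w, w = u * C₂ + u + 1 := ⟨_, rfl⟩
  refine ⟨w * C₁ + u * C₂, fun K => ?_⟩
  obtain ⟨N1, hch⟩ := choice 1 K u 2
  obtain ⟨N2, hlg⟩ := ev_log' (w * C₁ + w + 2) 1
  obtain ⟨N3, hL'⟩ := ev_L' 100
  obtain ⟨N4, hV'⟩ := Vz_inv_small K
  refine ⟨N1 + N2 + N3 + N4 + 1, fun N hN z hz hzK E κ θ hE hS hκ => ?_⟩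
  obtain ⟨r, hr1, hr2, _⟩ := hch N (by omega) z hzK
  have b2 := hlg N (by omega)
  have b3 := hL' N (by omega)
  have b4 := hV' N (by omega) z hz hzK
  have hN1 : (1 : ℝ) ≤ N := by exact_mod_cast (by omega : 1 ≤ N)
  have hN0 : (0 : ℝ) < N := by linarith
  obtain ⟨L, hL⟩ : ∃ L, L = Real.log N := ⟨_, rfl⟩
  rw [← hL] at hr1 b2 b3 b4 hE hS ⊢
  rw [one_mul] at b2
  have hL0 : 0 < L := by linarith
  have hL1 : 1 ≤ L := by linarith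
  obtain ⟨m₀, hm₀⟩ : ∃ m₀, m₀ = ⌈L ^ (u * C₂)⌉₊ := ⟨_, rfl⟩
  have hm1 : L ^ (u * C₂) ≤ m₀ := by rw [hm₀]; exact Nat.le_ceil _
  have hm2 : (m₀ : ℝ) ≤ L ^ (u * C₂ + 1) := by
    have e1 : (m₀ : ℝ) < L ^ (u * C₂) + 1 := by rw [hm₀]; exact Nat.ceil_lt_add_one (by positivity)
    have e2 : 1 ≤ L ^ (u * C₂) := one_le_pow₀ hL1
    rw [pow_succ]
    nlinarith
  have hm3 : (m₀ : ℝ) ≤ L ^ w := hm2.trans (pow_le_pow_right₀ hL1 (by omega))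
  have hm4 : 1 ≤ m₀ := by
    have : (0 : ℝ) < m₀ := lt_of_lt_of_le (by positivity) hm1
    exact_mod_cast this
  obtain ⟨J, hJ⟩ : ∃ J, J = Nat.log 2 N + 1 := ⟨_, rfl⟩
  have hJ1 : N ≤ m₀ * 2 ^ J := by
    have e1 : N < 2 ^ J := by rw [hJ]; exact Nat.lt_pow_succ_log_self (by norm_num) N
    calc N ≤ 1 * 2 ^ J := by omega
      _ ≤ m₀ * 2 ^ J := Nat.mul_le_mul_right _ hm4
  have hJ2 : (J : ℝ) ≤ 2 * L := by
    have e1 : (2 : ℝ) ^ Nat.log 2 N ≤ N := by exact_mod_cast Nat.pow_log_le_self 2 (by omega : N ≠ 0)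
    have e2 := Real.log_le_log (by positivity) e1
    rw [Real.log_pow, ← hL] at e2
    have e3 := Real.log_two_gt_d9
    have e4 : (0 : ℝ) ≤ Nat.log 2 N := Nat.cast_nonneg _
    rw [hJ]
    push_cast
    nlinarith
  have hsq : L ^ (w * C₁ + w + 2) ≤ √(N : ℝ) := b2
  have hsN : √(N : ℝ) ≤ N := by
    rw [Real.sqrt_le_left hN0.le]
    nlinarith
  have hDs : (((z + 1) ^ r : ℕ) : ℝ) ≤ √(N : ℝ) := by
    rw [← Real.sqrt_sq (Nat.cast_nonneg ((z + 1) ^ r) : (0 : ℝ) ≤ (((z + 1) ^ r : ℕ) : ℝ))]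
    apply Real.sqrt_le_sqrt
    push_cast
    exact hr2
  have hDN : (z + 1) ^ r ≤ N := by exact_mod_cast hDs.trans hsN
  have hL2 : (2 : ℝ) ≤ L := by linarith
  have hpw : ∀ k : ℕ, 1 ≤ k → 2 ≤ L ^ k := fun k hk => hL2.trans (le_self_pow₀ hL1 (by omega))
  have hQ0 : 0 ≤ L ^ 2 := by positivity
  have hM := mults C₁ C₂ hI hII (L ^ w) (L ^ u) (L ^ 2) N ((z + 1) ^ r) m₀ J E κ θ (hpw w (by omega)) (hpw u (by omega))
    (by rw [← hL]; exact le_self_pow₀ hL1 (by omega))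
    (by
      rw [← pow_mul]
      exact (pow_le_pow_right₀ hL1 (by omega)).trans (hsq.trans hsN))
    (by rw [← pow_mul]; exact hm1) hm3 hJ1 hDN hQ0
    (pow_le_pow_right₀ hL1 (by omega)) (pow_le_pow_right₀ hL1 (by omega)) hE
    (by
      intro α
      refine (hS α).trans ?_
      rw [← pow_mul]
      have : L ^ (w * C₁) ≤ L ^ (w * C₁ + u * C₂) := pow_le_pow_right₀ hL1 (by omega)
      gcongr)
    (by
      intro α
      refine (hS α).trans ?_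
      rw [← pow_mul]
      have : L ^ (u * C₂) ≤ L ^ (w * C₁ + u * C₂) := pow_le_pow_right₀ hL1 (by omega)
      gcongr) hκ
  have hmod := model (FF N E κ θ) N z r (N * L ^ 2) (1 / L ^ u) (by positivity)
    (FF_le N E κ θ (L ^ 2) hQ0 hE hκ) (by
      refine le_trans (le_of_eq ?_) hr1
      push_cast
      ring_nf)
  refine hmod.trans ?_
  have hLu : 0 < L ^ u := by positivity
  have c1 : (m₀ : ℝ) * ((N : ℝ) ^ 2 / L ^ w) ≤ (N : ℝ) ^ 2 / L ^ u := by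
    calc (m₀ : ℝ) * ((N : ℝ) ^ 2 / L ^ w) ≤ L ^ (u * C₂ + 1) * ((N : ℝ) ^ 2 / L ^ w) := by gcongr
      _ = (N : ℝ) ^ 2 / L ^ u := by
        rw [hw, show u * C₂ + u + 1 = (u * C₂ + 1) + u by ring, pow_add L (u * C₂ + 1) u]
        field_simp
  have c2 : (((z + 1) ^ r : ℕ) : ℝ) * m₀ * (N * L ^ 2) ≤ (N : ℝ) ^ 2 / L ^ u := by
    rw [le_div_iff₀ hLu]
    have d1 : (m₀ : ℝ) * L ^ 2 * L ^ u ≤ √(N : ℝ) := by
      calc (m₀ : ℝ) * L ^ 2 * L ^ u ≤ L ^ (u * C₂ + 1) * L ^ 2 * L ^ u := by gcongr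
        _ = L ^ (u * C₂ + 1 + 2 + u) := by ring
        _ ≤ L ^ (w * C₁ + w + 2) := pow_le_pow_right₀ hL1 (by omega)
        _ ≤ √(N : ℝ) := hsq
    calc (((z + 1) ^ r : ℕ) : ℝ) * m₀ * (N * L ^ 2) * L ^ u = (((z + 1) ^ r : ℕ) : ℝ) * (m₀ * L ^ 2 * L ^ u) * N := by
          ring
      _ ≤ √(N : ℝ) * √(N : ℝ) * N := by gcongr
      _ = (N : ℝ) ^ 2 := by rw [Real.mul_self_sqrt hN0.le]; ring
  have c3 : (J : ℝ) ^ 2 * ((N : ℝ) ^ 2 / L ^ u) ≤ 4 * L ^ 2 * ((N : ℝ) ^ 2 / L ^ u) := by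
    have : (J : ℝ) ^ 2 ≤ 4 * L ^ 2 := by
      calc (J : ℝ) ^ 2 ≤ (2 * L) ^ 2 := pow_le_pow_left₀ (Nat.cast_nonneg _) hJ2 2
        _ = _ := by ring
    gcongr
  have hP : 0 ≤ (N : ℝ) ^ 2 / L ^ u := by positivity
  have hLsq : 1 ≤ L ^ 2 := one_le_pow₀ hL1
  have hin : (N : ℝ) * L ^ 2 * (N * (1 / L ^ u)) +
      ∑ d ∈ Icc 1 ((z + 1) ^ r), ‖∑ m ∈ Icc 1 (N / d), FF N E κ θ (d * m)‖ ≤ 7 * L ^ 2 * ((N : ℝ) ^ 2 / L ^ u) := by
    have d0 : (N : ℝ) * L ^ 2 * (N * (1 / L ^ u)) = L ^ 2 * ((N : ℝ) ^ 2 / L ^ u) := by ring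
    have d1 : (N : ℝ) ^ 2 / L ^ u ≤ L ^ 2 * ((N : ℝ) ^ 2 / L ^ u) := le_mul_of_one_le_left hP hLsq
    rw [d0]
    linarith
  have hin0 : 0 ≤ (N : ℝ) * L ^ 2 * (N * (1 / L ^ u)) +
      ∑ d ∈ Icc 1 ((z + 1) ^ r), ‖∑ m ∈ Icc 1 (N / d), FF N E κ θ (d * m)‖ :=
    add_nonneg (by positivity) (sum_nonneg fun _ _ => norm_nonneg _)
  calc (Vz z)⁻¹ * ((N : ℝ) * L ^ 2 * (N * (1 / L ^ u)) +
      ∑ d ∈ Icc 1 ((z + 1) ^ r), ‖∑ m ∈ Icc 1 (N / d), FF N E κ θ (d * m)‖) ≤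
        L * (7 * L ^ 2 * ((N : ℝ) ^ 2 / L ^ u)) := mul_le_mul b4 hin hin0 hL0.le
    _ = (7 / L ^ 5) * ((N : ℝ) ^ 2 / L ^ U) := by
        rw [hu, show U + 8 = U + 3 + 5 by ring, pow_add, pow_add]
        field_simp
    _ ≤ 1 * ((N : ℝ) ^ 2 / L ^ U) := by
        apply mul_le_mul_of_nonneg_right _ (by positivity)
        rw [div_le_one (by positivity)]
        have : L ≤ L ^ 5 := le_self_pow₀ hL1 (by norm_num)
        linarith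
    _ = (N : ℝ) ^ 2 / L ^ U := one_mul _

end Pool.Agent.E8helper70.GB
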